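import Pool.Agent.J6H68.Nut.Stm

/-!
# Modules ROW and MARK
-/

set_option autoImplicit false
set_option linter.unusedSectionVars false

namespace Pool.Agent.J6H33.Nut

open Finset Pool.Agent.TH296.Nut Pool.Agent.J6H28.Nut Pool.Agent.J6H68.Nut

theorem st_row : Pool.Agent.J6H68.Nut.StRow := by
  intro T m p k ρ V _ _ S E pos a e f g h hc h8 hk hk2 hT6 hT4 hρ i
  have hpe := hc.pe
  have hpf := hc.pf
  have hef : ¬ blk m k (pos e) (pos f) := by
    unfold blk cir mat
    have := hc.lt f
    split_ifs <;> omega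
  have hnb : ∀ j, E i j ≠ 0 → ¬ blk m k (pos i) (pos j) := by
    intro j hE
    rcases hc.band i j hE with hb | hb | hb
    · exact not_blk (hc.lt i) (hc.lt j) hk hk2 h8 hb
    · rw [hb.1, hb.2]
      exact hef
    · rw [hb.1, hb.2]
      exact fun hb2 => hef ((blk_symm _ _ _ _).1 hb2)
  have hpt : ∀ j, S i j ^ 2 + 2 * K0 m k E pos i j =
      2 - (2 * E i j - S i j ^ 2) - 2 * (if blk m k (pos i) (pos j) then 1 else 0) := by
    intro j
    unfold K0
    rcases hc.ev i j with h0 | h1
    · rw [h0]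
      by_cases hb : blk m k (pos i) (pos j)
      · rw [if_neg (fun hh => hh.2 hb), if_pos hb]
        ring
      · rw [if_pos ⟨rfl, hb⟩, if_neg hb]
        ring
    · have hb := hnb j (by rw [h1]; norm_num)
      rw [h1, if_neg (fun hh => by simpa using hh.1), if_neg hb]
      ring
  have e1 : ∑ j, (if blk m k (pos i) (pos j) then (1 : ℤ) else 0) =
      (((range m).filter (fun j => blk m k (pos i) j)).card : ℤ) := by
    rw [← card_pos pos hc.card hc.inj hc.lt, Finset.sum_boole]
  rw [Finset.sum_congr rfl fun j _ => hpt j, Finset.sum_sub_distrib, Finset.sum_sub_distrib,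
    hc.row i, ← Finset.mul_sum, e1, card_blk (hc.lt i) hk hk2, Finset.sum_const, Finset.card_univ,
    hc.card]
  have hρ' : (ρ : ℤ) + 4 + 2 * k = 2 * m := by exact_mod_cast hρ
  by_cases hodd : m % 2 = 1 ∧ k % 2 = 1
  · rw [hT6 hodd]
    by_cases hp0 : pos i = 0
    · rw [if_pos hp0, if_pos ⟨hodd.1, hodd.2, hp0⟩]
      push_cast [Nat.cast_sub (show 1 ≤ k by omega)]
      simp only [nsmul_eq_mul]
      linarith
    · rw [if_neg hp0, if_neg (by tauto)]
      simp only [nsmul_eq_mul]
      linarith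
  · rw [hT4 hodd, ite_self, if_neg (by tauto)]
    simp only [nsmul_eq_mul]
    linarith

/-- scaling the kernel vector -/
theorem nw_scale {V : Type} [Fintype V] {ρ : ℕ} {W : V → V → ℝ} {x : V → ℝ}
    (h : NW V ρ W x) {c : ℝ} (hc : c ≠ 0) : NW V ρ W (fun v => c * x v) := by
  refine ⟨h.zo, h.symm, h.diag, h.deg, fun v => mul_ne_zero hc (h.nz v), ?_, ?_⟩
  · intro v
    have e : ∀ w, W v w * (c * x w) = c * (W v w * x w) := fun w => by ring
    rw [Finset.sum_congr rfl fun w _ => e w, ← Finset.mul_sum, h.ker v, mul_zero]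
  · intro y hy
    obtain ⟨d, hd⟩ := h.uniq y hy
    refine ⟨d / c, fun v => ?_⟩
    rw [hd v]
    field_simp

theorem st_mark : Pool.Agent.J6H68.Nut.StMark := by
  intro T m p V _ _ S E pos a e f g h K ρ hc hkv hks hdisj hkd hdeg hB
  have hP : PD V ρ S K := ⟨hc.val, hc.symm, hc.diag, hkv, hks, hkd, hdisj, hdeg⟩
  have hN := hP.nw (fun i => (a i : ℝ)) (fun i => by exact_mod_cast hc.anz i)
    (fun i => by exact_mod_cast hc.hSa i) hc.line hB
  have hag : (a g : ℝ) ≠ 0 := by exact_mod_cast hc.anz g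
  have hN2 := nw_scale hN (one_div_ne_zero hag)
  have hK : K g h = 0 := by
    by_contra hne
    exact hc.gS (hdisj g h hne)
  have hga : (a g : ℝ) = (S g h : ℝ) * a h := by exact_mod_cast hc.ga
  obtain ⟨s, hs⟩ : ∃ s : Bool, sg s = (S g h : ℝ) := by
    rcases hc.val g h with h0 | h1 | h1
    · exact absurd h0 hc.gS
    · exact ⟨false, by rw [h1]; simp [sg]⟩
    · exact ⟨true, by rw [h1]; simp [sg]⟩
  have hS2 : (S g h : ℝ) ^ 2 = 1 := by
    rcases hc.val g h with h0 | h1 | h1
    · exact absurd h0 hc.gS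
    · rw [h1]; norm_num
    · rw [h1]; norm_num
  have hsf : sg false = 1 := by simp [sg]
  have hW : pw S K (g, false) (h, s) = 1 := by
    simp only [pw]
    rw [hK, hs, hsf, hS2]
    have : (S g h : ℝ) * S g h = 1 := by rw [← sq]; exact hS2
    rw [one_mul, this]
    norm_num
  refine ⟨V × Bool, inferInstance, _, _, fun q => if q.2 then (h, s) else (g, false), hN2, ?_, ?_,
    ?_, ?_⟩
  · rw [card_db, hc.card]
  · rintro ⟨q1, b1⟩ ⟨q2, b2⟩ hq
    have hq12 : q1 = q2 := Subsingleton.elim _ _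
    cases b1 <;> cases b2 <;> simp at hq
    · rw [hq12]
    · exact absurd hq.1 hc.gh
    · exact absurd hq.1.symm hc.gh
    · rw [hq12]
  · rintro ⟨q, b⟩
    cases b
    · exact hW
    · have := hN.symm (h, s) (g, false)
      exact this.trans hW
  · rintro ⟨q, b⟩
    cases b
    · simp only [Bool.false_eq_true, if_false, hsf]
      field_simp
    · simp only [if_true, hs]
      rw [← hga]
      field_simp

end Pool.Agent.J6H33.Nut
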